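import Pool.Agent.MP_1246c0_nt.H25.SpecR

/-! A generating solution in a space of given dimension. -/

namespace Pool.Agent.MP_1246c0_nt.H25

open Polynomial Finset Matrix
open Pool.Agent.MP_1246c0_nt.H12

namespace LDO

theorem lr : LR i2 i2 0 1 :=
  ⟨rfl, fun _ => rfl, fun _ => rfl, fun h => ⟨0, by revert h; decide⟩,
    fun _ => zero_dvd_iff.symm, rfl⟩

theorem prod_ge (n : ℕ) : (2 : ℝ) ^ ((n + 1) * (n + 1)) * (2 ^ (n + 1) + 2) ≤
    4 * 2 ^ (n + 1) * ∏ i ∈ range (n + 1), ((2 : ℝ) ^ (n + 1) - 2 ^ i) := by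
  induction n with
  | zero => norm_num
  | succ n ih =>
    generalize hk : n + 1 = k at ih
    have h : ∏ i ∈ range k, ((2 : ℝ) ^ (k + 1) - 2 ^ (i + 1)) =
        2 ^ k * ∏ i ∈ range k, ((2 : ℝ) ^ k - 2 ^ i) := by
      rw [prod_congr rfl fun i _ => (by ring : (2 : ℝ) ^ (k + 1) - 2 ^ (i + 1) =
        2 * (2 ^ k - 2 ^ i)), prod_mul_distrib, prod_const, card_range]
    have h2 : (2 : ℝ) ^ 1 ≤ 2 ^ k := pow_le_pow_right₀ one_le_two (by omega)
    have h3 : (2 : ℝ) ^ ((k + 1) * (k + 1)) = 2 ^ (k * k) * (2 * (2 ^ k * 2 ^ k)) := by ring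
    have h4 : (0 : ℝ) < 2 ^ (k * k) := by positivity
    rw [prod_range_succ', h, h3, pow_succ, pow_zero]
    generalize (2 : ℝ) ^ (k * k) = y at *
    generalize (2 : ℝ) ^ k = x at *
    generalize ∏ i ∈ range k, (x - 2 ^ i) = a at *
    have h5 := mul_le_mul_of_nonneg_left ih
      (show 0 ≤ 2 * x * (2 * x - 1) from mul_nonneg (by linarith) (by linarith))
    have h6 : 0 ≤ y * x * (x - 2) :=
      mul_nonneg (mul_nonneg h4.le (by linarith)) (by linarith)
    nlinarith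

theorem card_ge (γ : ℕ) :
    (2 : ℝ) ^ (γ * γ) ≤ 4 * Nat.card ((Fin γ → F2) ≃ₗ[F2] (Fin γ → F2)) := by
  have h : (Nat.card ((Fin γ → F2) ≃ₗ[F2] (Fin γ → F2)) : ℝ) =
      ∏ i ∈ range γ, ((2 : ℝ) ^ γ - 2 ^ i) := by
    rw [← Nat.card_congr (LinearMap.GeneralLinearGroup.generalLinearEquiv F2 _).toEquiv,
      ← Nat.card_congr (Matrix.GeneralLinearGroup.toLin (n := Fin γ) (R := F2)).toEquiv,
      Matrix.card_GL_field, ZMod.card, Nat.cast_prod, ← Fin.prod_univ_eq_prod_range]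
    refine prod_congr rfl fun j _ => ?_
    rw [Nat.cast_sub (Nat.pow_le_pow_right two_pos j.2.le)]
    simp
  rw [h]
  rcases γ with _ | n
  · norm_num
  · have h1 := prod_ge n
    have h2 : (0 : ℝ) < 2 ^ (n + 1) := by positivity
    have h3 : (0 : ℝ) < 2 ^ ((n + 1) * (n + 1)) := by positivity
    refine le_of_mul_le_mul_left ?_ h2
    linarith

variable {ι G : Type} [Fintype ι] [DecidableEq ι] [AddCommGroup G] [Module F2 G]
  {S : Matrix ι ι F2} {e : ι → F2} {P O : Finset ι} {b : Bool} {u : Module.End F2 G} {g : ι → G}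

theorem slo_map {u' : Module.End F2 G} (φ : G →ₗ[F2] G) (h : ∀ x, φ (u x) = u' (φ x))
    (hg : Slo S e P O b u g) : Slo S e P O b u' fun l => φ (g l) := by
  have hx : ∀ l, xv P b u' (fun l => φ (g l)) l = φ (xv P b u g l) := fun l => by
    simp only [xv, apply_ite φ, h]
  refine ⟨fun l => ?_, ?_⟩
  · simpa only [ap, hx, rvo, apply_ite φ, h, map_sum, map_smul, map_add, map_zero] using
      congrArg φ (hg.1 l)
  · simpa only [hx, map_sum, map_smul, map_zero] using congrArg φ hg.2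

omit [Fintype ι] [DecidableEq ι] in
theorem gen_map {u' : Module.End F2 G} (φ : G →ₗ[F2] G) (hφ : Function.Surjective φ)
    (h : ∀ x, φ (u x) = u' (φ x)) (hg : Gen u g) : Gen u' fun l => φ (g l) := fun W h1 h2 => by
  have := hg (W.comap φ) (fun w hw => by rw [Submodule.mem_comap, h]; exact h1 _ hw) h2
  refine eq_top_iff.2 fun x _ => ?_
  obtain ⟨y, rfl⟩ := hφ x
  exact this.ge trivial

theorem orbit_le [Finite G] [Fintype (Module.End F2 G)] (h1 : Slo S e P O b u g) (h2 : Gen u g) :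
    Nat.card (G ≃ₗ[F2] G) ≤ ∑ v : Module.End F2 G, Suo S e P O b v := by
  have k : ∀ (A : G ≃ₗ[F2] G) x, (A : G →ₗ[F2] G) (u x) = A.conj u ((A : G →ₗ[F2] G) x) :=
    fun A x => by simp [LinearEquiv.conj_apply]
  simp only [Suo]
  rw [← Nat.card_sigma]
  refine Nat.card_le_card_of_injective (fun A => ⟨A.conj u, fun l => (A : G →ₗ[F2] G) (g l),
    slo_map _ (k A) h1, gen_map _ A.surjective (k A) h2⟩) fun A A' h => ?_
  have a : A.conj u = A'.conj u := congrArg Sigma.fst h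
  have c : (fun l => (A : G →ₗ[F2] G) (g l)) = fun l => (A' : G →ₗ[F2] G) (g l) :=
    congrArg (fun q : Σ v : Module.End F2 G, {g : ι → G // Slo S e P O b v g ∧ Gen v g} =>
      q.2.1) h
  have d := h2 (LinearMap.eqLocus (A : G →ₗ[F2] G) (A' : G →ₗ[F2] G)) (fun w hw => by
    rw [LinearMap.mem_eqLocus] at hw ⊢
    rw [k, k, a, hw]) fun l => congrFun c l
  exact LinearEquiv.ext fun x => (LinearMap.mem_eqLocus.1 (d.ge (Submodule.mem_top (x := x))) :)

end LDO

open LDO in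
theorem rowLDO : OfLDO := by
  intro hA hM ι _ _ S e B P O J b m z γ hO ha
  have hf : Finite (Module.End F2 (Fin γ → F2)) := Finite.of_injective _ DFunLike.coe_injective
  have := Fintype.ofFinite (Module.End F2 (Fin γ → F2))
  have hc : (Fintype.card (Module.End F2 (Fin γ → F2)) : ℝ) = 2 ^ (γ * γ) := by
    rw [Fintype.card_congr ((LinearMap.toMatrix' (R := F2) (m := Fin γ)
      (n := Fin γ)).toEquiv.trans Matrix.of.symm), Fintype.card_fun, Fintype.card_fun]
    simp [← pow_mul]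
  have hp : (0 : ℝ) < 2 ^ (γ * γ) := by positivity
  refine (hA.mono _ _ _ (fun H => 4 / 2 ^ (γ * γ) *
    ∑ v : Module.End F2 (Fin γ → F2), (Suo (S + H) e P O b v : ℝ)) fun H _ => ?_).trans ?_
  · unfold ind
    split_ifs with h
    · obtain ⟨u, g, h1, h2⟩ := h
      have h3 := (Nat.cast_le (α := ℝ)).2 (orbit_le h1 h2)
      rw [Nat.cast_sum] at h3
      rw [div_mul_eq_mul_div, one_le_div hp]
      linarith [card_ge γ]
    · positivity
  · rw [hA.mul, hA.sum, div_mul_eq_mul_div, div_le_iff₀ hp, mul_assoc, mul_comm _ (2 ^ (γ * γ)),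
      ← hc, ← nsmul_eq_mul, ← card_univ]
    exact mul_le_mul_of_nonneg_left (sum_le_card_nsmul _ _ _ fun v _ =>
      hM F2 ι _ i2 i2 0 1 S e B P O J b m z γ v lr hO ha (by simp)) (by norm_num)

end Pool.Agent.MP_1246c0_nt.H25
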