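import Pool.Agent.MP_1246c0_nt.H25.SpecA

/-! A gap in the elementary divisors of a finite abelian group of exponent a power of two. -/

namespace Pool.Agent.MP_1246c0_nt.H25

namespace GAP

lemma low {e i : ℕ} (h : e ≤ i) (x : ZMod (2 ^ e)) : 2 ^ i • x = 0 := by
  rw [nsmul_eq_mul, (ZMod.natCast_eq_zero_iff _ _).2 (pow_dvd_pow 2 h), zero_mul]

lemma high {e i J : ℕ} (h : i + J ≤ e) (h' : 2 ^ J ∣ 2 ^ e) (x : ZMod (2 ^ e)) :
    ZMod.castHom h' (ZMod (2 ^ J)) x = 0 ↔ ∃ y, 2 ^ (i + J) • y = 2 ^ i • x := by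
  obtain ⟨a, rfl⟩ := ZMod.intCast_surjective x
  rw [map_intCast, ZMod.intCast_zmod_eq_zero_iff_dvd]
  constructor
  · rintro ⟨b, rfl⟩
    exact ⟨b, by simp only [nsmul_eq_mul]; push_cast; ring⟩
  · rintro ⟨y, hy⟩
    obtain ⟨b, rfl⟩ := ZMod.intCast_surjective y
    have h1 : ((2 ^ i * a - 2 ^ (i + J) * b : ℤ) : ZMod (2 ^ e)) = 0 := by
      simp only [nsmul_eq_mul] at hy
      push_cast at hy ⊢
      rw [hy, sub_self]
    rw [ZMod.intCast_zmod_eq_zero_iff_dvd] at h1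
    have h2 : (2 : ℤ) ^ i * 2 ^ J ∣ 2 ^ i * (a - 2 ^ J * b) := by
      rw [← pow_add, mul_sub, ← mul_assoc, ← pow_add]
      exact (pow_dvd_pow 2 h).trans (by exact_mod_cast h1)
    have h3 := (mul_dvd_mul_iff_left (by positivity)).1 h2
    push_cast
    exact (dvd_sub_left (dvd_mul_right _ b)).1 h3

lemma key {M ι : Type} [AddCommGroup M] {e : ι → ℕ} (φ : M ≃+ ∀ j, ZMod (2 ^ e j)) (i J : ℕ)
    (h : ∀ j, e j ≤ i ∨ i + J ≤ e j) : ∃ π : M →+ {j // i + J ≤ e j} → ZMod (2 ^ J),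
      Function.Surjective π ∧ ∀ x, π x = 0 ↔ 2 ^ i • x ∈ Mu M (i + J) := by
  classical
  have d : ∀ j : {j // i + J ≤ e j}, 2 ^ J ∣ 2 ^ e j := fun j =>
    pow_dvd_pow 2 ((Nat.le_add_left _ _).trans j.2)
  refine ⟨AddMonoidHom.pi fun j => (ZMod.castHom (d j) (ZMod (2 ^ J))).toAddMonoidHom.comp
    ((Pi.evalAddMonoidHom _ j.1).comp φ.toAddMonoidHom), fun z => ?_, fun x => ?_⟩
  · refine ⟨φ.symm fun j => if hj : i + J ≤ e j then ((z ⟨j, hj⟩).val : ZMod (2 ^ e j)) else 0,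
      funext fun j => ?_⟩
    simp [j.2]
  · rw [funext_iff, mem_Mu]
    constructor
    · intro hx
      have : ∀ j, ∃ y, 2 ^ (i + J) • y = 2 ^ i • φ x j := fun j => by
        by_cases hj : i + J ≤ e j
        · exact (high hj (d ⟨j, hj⟩) _).1 (hx ⟨j, hj⟩)
        · exact ⟨0, by rw [smul_zero, low ((h j).resolve_right hj)]⟩
      choose y hy using this
      refine ⟨φ.symm y, φ.injective ?_⟩
      rw [map_nsmul, map_nsmul, φ.apply_symm_apply]
      exact funext hy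
    · rintro ⟨y, hy⟩ j
      refine (high j.2 (d j) _).2 ⟨φ y j, ?_⟩
      have := congrFun (congrArg φ hy) j
      rwa [map_nsmul, map_nsmul] at this

end GAP

theorem rowGAP : SGAP := by
  classical
  intro M _ _ ρ J h2 hρ ⟨y, hy⟩
  obtain ⟨ι, _, n, hn, ⟨φ⟩⟩ := AddCommGroup.equiv_directSum_zmod_of_finite' M
  replace φ := φ.trans (DirectSum.addEquivProd _)
  have he : ∀ j, ∃ e, n j = 2 ^ e := fun j => by
    obtain ⟨k, hk⟩ := h2 (φ.symm (Pi.single j 1))
    have := congrFun (congrArg φ hk) j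
    rw [map_nsmul, φ.apply_symm_apply, map_zero, Pi.smul_apply, Pi.single_eq_same, nsmul_one,
      Pi.zero_apply, ZMod.natCast_eq_zero_iff] at this
    exact ((Nat.dvd_prime_pow Nat.prime_two).1 this).imp fun _ h => h.2
  choose e he using he
  obtain rfl : n = fun j => 2 ^ e j := funext he
  have e1 : ∀ j, 0 + 1 ≤ e j := fun j => Nat.pos_of_ne_zero fun h => by simpa [h] using hn j
  have hι : Fintype.card ι ≤ ρ := by
    obtain ⟨π, h1, h3⟩ := GAP.key φ 0 1 fun j => Or.inr (e1 j)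
    have h4 : Mu M 1 = π.ker := by
      ext x
      simpa using (h3 x).symm
    rw [h4, AddSubgroup.index_ker, AddMonoidHom.range_eq_top.2 h1, AddSubgroup.card_top,
      Nat.card_fun, Nat.card_zmod, pow_one, Nat.card_congr (Equiv.subtypeUnivEquiv e1),
      Nat.card_eq_fintype_card] at hρ
    exact (Nat.pow_le_pow_iff_right one_lt_two).1 hρ
  obtain ⟨k, hk, hk'⟩ := Finset.exists_mem_notMem_of_card_lt_card
    (s := Finset.univ.image fun j => e j / J) (t := Finset.range (ρ + 1))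
    (by rw [Finset.card_range]; exact Nat.lt_succ_of_le (Finset.card_image_le.trans hι))
  obtain ⟨π, h1, h3⟩ := GAP.key φ (J * k) J fun j => by
    by_contra h
    push Not at h
    exact hk' (Finset.mem_image.2 ⟨j, Finset.mem_univ _,
      Nat.div_eq_of_lt_le (by nlinarith [h.1]) (by nlinarith [h.2])⟩)
  obtain ⟨j, hj⟩ : ∃ j, J * k + J ≤ e j := by
    by_contra h
    push Not at h
    refine hy (φ.injective ?_)
    rw [map_nsmul, map_zero]
    funext j
    exact GAP.low (by nlinarith [h j, Finset.mem_range.1 hk]) _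
  let ε := AddEquiv.arrowCongr (Fintype.equivFin {j // J * k + J ≤ e j})
    (AddEquiv.refl (ZMod (2 ^ J)))
  refine ⟨_, J * k, ε.toAddMonoidHom.comp π, Fintype.card_pos_iff.2 ⟨⟨j, hj⟩⟩,
    (Fintype.card_subtype_le _).trans hι, ε.surjective.comp h1, fun x => ?_⟩
  rw [← h3]
  exact ε.map_eq_zero_iff

end Pool.Agent.MP_1246c0_nt.H25
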